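import Pool.Agent.K6.H85.SM.Real
import Pool.Agent.K6.H85.SC.Dom

set_option autoImplicit false
set_option linter.unusedSectionVars false
set_option linter.unusedVariables false

/-!
# The derived Lie algebra of the Hodge group in terms of matrices
-/

open Module Matrix Function Pool.Agent.Y102 Pool.Agent.W516.DR Pool.Agent.H204R3.GP
  Pool.Agent.N208.AM Pool.Agent.N113.BT

noncomputable section

namespace Pool.Agent.K6.H85.SM

open scoped TensorProduct

/-! ### Transposes -/

section Tr

variable {n k : ℕ} {L D : Submodule ℂ (Matrix (Fin n) (Fin n) ℂ)}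
  {I : Fin k → Submodule ℂ (Matrix (Fin n) (Fin n) ℂ)}

/-- The transposes of the elements of a space. -/
def tM (J : Submodule ℂ (Matrix (Fin n) (Fin n) ℂ)) : Submodule ℂ (Matrix (Fin n) (Fin n) ℂ) where
  carrier := {x | xᵀ ∈ J}
  add_mem' := fun {a b} ha hb => by
    change (a + b)ᵀ ∈ J
    rw [Matrix.transpose_add]
    exact J.add_mem ha hb
  zero_mem' := by
    change (0 : Matrix (Fin n) (Fin n) ℂ)ᵀ ∈ J
    rw [Matrix.transpose_zero]
    exact J.zero_mem
  smul_mem' := fun c a ha => by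
    change (c • a)ᵀ ∈ J
    rw [Matrix.transpose_smul]
    exact J.smul_mem c ha

theorem mem_tM {J : Submodule ℂ (Matrix (Fin n) (Fin n) ℂ)} {x : Matrix (Fin n) (Fin n) ℂ} :
    x ∈ tM J ↔ xᵀ ∈ J := Iff.rfl

theorem tM_tM (J : Submodule ℂ (Matrix (Fin n) (Fin n) ℂ)) : tM (tM J) = J := by
  ext x
  rw [mem_tM, mem_tM, Matrix.transpose_transpose]

theorem tM_mono {J J' : Submodule ℂ (Matrix (Fin n) (Fin n) ℂ)} (h : J ≤ J') : tM J ≤ tM J' :=
  fun _ hx => h hx

theorem tr_bk (x y : Matrix (Fin n) (Fin n) ℂ) : (bk x y)ᵀ = bk yᵀ xᵀ := by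
  unfold bk
  rw [Matrix.transpose_sub, Matrix.transpose_mul, Matrix.transpose_mul]

theorem com_tM {J : Submodule ℂ (Matrix (Fin n) (Fin n) ℂ)} {x : Matrix (Fin n) (Fin n) ℂ} :
    Com x (tM J) ↔ Com xᵀ J := by
  constructor
  · intro h z hz
    have h1 := h zᵀ (by rw [mem_tM, Matrix.transpose_transpose]; exact hz)
    have h2 := congrArg Matrix.transpose h1
    rw [Matrix.transpose_mul, Matrix.transpose_mul, Matrix.transpose_transpose] at h2
    exact h2.symm
  · intro h z hz
    have h2 := congrArg Matrix.transpose (h _ hz)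
    rw [Matrix.transpose_mul, Matrix.transpose_mul, Matrix.transpose_transpose,
      Matrix.transpose_transpose] at h2
    exact h2.symm

theorem Ideals.tr (h : Ideals L I) : Ideals (tM L) (fun i => tM (I i)) where
  le i := tM_mono (h.le i)
  dec x hx := by
    obtain ⟨c, hc, hce⟩ := h.dec _ hx
    refine ⟨fun i => (c i)ᵀ, fun i => ?_, ?_⟩
    · rw [mem_tM, Matrix.transpose_transpose]
      exact hc i
    · rw [← Matrix.transpose_sum, ← hce, Matrix.transpose_transpose]
  comm i j hij x hx y hy := by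
    have h1 := congrArg Matrix.transpose (h.comm i j hij _ hx _ hy)
    rw [Matrix.transpose_mul, Matrix.transpose_mul, Matrix.transpose_transpose,
      Matrix.transpose_transpose] at h1
    exact h1.symm
  br i x hx y hy := by
    change (bk x y)ᵀ ∈ I i
    rw [tr_bk]
    exact h.br i _ hy _ hx
  simple i N hN hNb := by
    have h1 := h.simple i (tM N) (fun x hx => by
      have := hN hx
      rwa [mem_tM, Matrix.transpose_transpose] at this) (fun x hx y hy => by
      change (bk x y)ᵀ ∈ N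
      rw [tr_bk, bk_anti]
      exact N.neg_mem (hNb xᵀ (by rw [mem_tM, Matrix.transpose_transpose]; exact hx) _ hy))
    rcases h1 with h1 | h1
    · left
      rw [← tM_tM N, h1]
      refine (Submodule.eq_bot_iff _).2 fun x hx => ?_
      rw [mem_tM, Submodule.mem_bot] at hx
      rw [← Matrix.transpose_transpose x, hx, Matrix.transpose_zero]
    · right
      rw [← h1, tM_tM]
  nonab i := by
    obtain ⟨x, hx, y, hy, hxy⟩ := h.nonab i
    refine ⟨xᵀ, by rw [mem_tM, Matrix.transpose_transpose]; exact hx, yᵀ, by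
      rw [mem_tM, Matrix.transpose_transpose]; exact hy, fun h0 => hxy ?_⟩
    rw [← Matrix.transpose_mul, ← Matrix.transpose_mul] at h0
    exact (Matrix.transpose_injective h0).symm

theorem Cov.tr {J : Submodule ℂ (Matrix (Fin n) (Fin n) ℂ)} (h : Cov D J) : Cov (tM D) (tM J) := by
  intro x hx
  obtain ⟨y, hy, hyx⟩ := h _ hx
  refine ⟨yᵀ, by rw [mem_tM, Matrix.transpose_transpose]; exact hy, ?_⟩
  rw [com_tM, Matrix.transpose_sub, Matrix.transpose_transpose]
  exact hyx

theorem rel_tr {i j : Fin k} (h : rel D I i j) : rel (tM D) (fun i => tM (I i)) i j := by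
  intro y hy
  rw [com_tM, com_tM]
  exact h _ hy

end Tr

/-! ### Matrices -/

section Mat

variable {n : ℕ}

/-- The complex span of the matrices of the elements of a space. -/
def cM (S : Submodule ℚ (Module.End ℚ (Fin n → ℚ))) : Submodule ℂ (Matrix (Fin n) (Fin n) ℂ) :=
  Submodule.span ℂ {Y | ∃ X ∈ S, Y = toC X}

theorem mem_cM {S : Submodule ℚ (Module.End ℚ (Fin n → ℚ))} {X : Module.End ℚ (Fin n → ℚ)}
    (hX : X ∈ S) : toC X ∈ cM S := Submodule.subset_span ⟨X, hX, rfl⟩

theorem matE_mem {S : Submodule ℚ (Module.End ℚ (Fin n → ℚ))} {x : Matrix (Fin n) (Fin n) ℂ} :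
    matE n x ∈ cx S ↔ x ∈ cM S := by
  rw [← map_lie]
  constructor
  · rintro ⟨y, hy, hxy⟩
    have h1 : y = x := (matE n).injective hxy
    rw [← h1]
    exact hy
  · intro hx
    exact ⟨x, hx, rfl⟩

theorem toC_br (X Y : Module.End ℚ (Fin n → ℚ)) : toC (X * Y - Y * X) = bk (toC X) (toC Y) := by
  refine (matE n).injective ?_
  unfold bk
  rw [matE_toC, map_sub, map_mul, map_mul, matE_toC, matE_toC]
  exact bc_br X Y

theorem cM_mono {S T : Submodule ℚ (Module.End ℚ (Fin n → ℚ))} (h : S ≤ T) : cM S ≤ cM T :=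
  Submodule.span_mono fun _ ⟨X, hX, e⟩ => ⟨X, h hX, e⟩

theorem cM_br {S : Submodule ℚ (Module.End ℚ (Fin n → ℚ))}
    (hS : ∀ X ∈ S, ∀ Y ∈ S, X * Y - Y * X ∈ S) : ∀ x ∈ cM S, ∀ y ∈ cM S, bk x y ∈ cM S := by
  intro x hx y hy
  induction hx using Submodule.span_induction with
  | mem x hx =>
    obtain ⟨X, hX, rfl⟩ := hx
    induction hy using Submodule.span_induction with
    | mem y hy =>
      obtain ⟨Y, hY, rfl⟩ := hy
      rw [← toC_br]
      exact mem_cM (hS X hX Y hY)
    | zero => rw [bk_zero']; exact Submodule.zero_mem _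
    | add a b _ _ ha hb => rw [bk_add']; exact Submodule.add_mem _ ha hb
    | smul c a _ ha => rw [bk_smul']; exact Submodule.smul_mem _ _ ha
  | zero => rw [bk_zero]; exact Submodule.zero_mem _
  | add a b _ _ ha hb => rw [bk_add]; exact Submodule.add_mem _ ha hb
  | smul c a _ ha => rw [bk_smul]; exact Submodule.smul_mem _ _ ha

/-- Automorphisms of the field of the complex numbers. -/
theorem cM_map {S : Submodule ℚ (Module.End ℚ (Fin n → ℚ))} (τ : ℂ →+* ℂ)
    {x : Matrix (Fin n) (Fin n) ℂ} (hx : x ∈ cM S) : x.map τ ∈ cM S := by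
  induction hx using Submodule.span_induction with
  | mem x hx =>
    obtain ⟨X, hX, rfl⟩ := hx
    have h1 : (toC X).map τ = toC X := by
      ext i j
      change τ ((X (Pi.single j 1) i : ℚ) : ℂ) = ((X (Pi.single j 1) i : ℚ) : ℂ)
      rw [map_ratCast]
    rw [h1]
    exact mem_cM hX
  | zero =>
    have h1 : (0 : Matrix (Fin n) (Fin n) ℂ).map τ = 0 := by ext i j; simp
    rw [h1]
    exact Submodule.zero_mem _
  | add a b _ _ ha hb =>
    have h1 : (a + b).map τ = a.map τ + b.map τ := by ext i j; simp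
    rw [h1]
    exact Submodule.add_mem _ ha hb
  | smul c a _ ha =>
    have h1 : (c • a).map τ = τ c • a.map τ := by ext i j; simp
    rw [h1]
    exact Submodule.smul_mem _ _ ha

/-- The relation is stable under the automorphisms of the field of the complex numbers. -/
theorem rel_gal {k : ℕ} {S : Submodule ℚ (Module.End ℚ (Fin n → ℚ))}
    {I : Fin k → Submodule ℂ (Matrix (Fin n) (Fin n) ℂ)} (τ : ℂ ≃+* ℂ) {i i' j j' : Fin k}
    (hi : ∀ x, x ∈ I i ↔ x.map τ ∈ I i') (hj : ∀ x, x ∈ I j ↔ x.map τ ∈ I j')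
    (hr : rel (cM S) I i j) : rel (cM S) I i' j' := by
  have key : ∀ {l l' : Fin k}, (∀ x, x ∈ I l ↔ x.map τ ∈ I l') → ∀ y : Matrix (Fin n) (Fin n) ℂ,
      Com y (I l') ↔ Com (y.map τ.symm) (I l) := by
    intro l l' hl y
    have e1 : ∀ x : Matrix (Fin n) (Fin n) ℂ, (x.map τ).map τ.symm = x := fun x => by
      ext a b; simp
    have e2 : ∀ x : Matrix (Fin n) (Fin n) ℂ, (x.map τ.symm).map τ = x := fun x => by
      ext a b; simp
    have e3 : ∀ x y : Matrix (Fin n) (Fin n) ℂ, (x * y).map τ.symm = x.map τ.symm * y.map τ.symm :=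
      fun x y => Matrix.map_mul
    have e4 : ∀ x y : Matrix (Fin n) (Fin n) ℂ, (x * y).map τ = x.map τ * y.map τ :=
      fun x y => Matrix.map_mul
    constructor
    · intro h z hz
      have h1 := congrArg (fun m : Matrix (Fin n) (Fin n) ℂ => m.map τ.symm)
        (h _ ((hl z).1 hz))
      rw [e3, e3, e1] at h1
      exact h1
    · intro h z hz
      have h1 := congrArg (fun m : Matrix (Fin n) (Fin n) ℂ => m.map τ)
        (h (z.map τ.symm) ((hl _).2 (by rw [e2]; exact hz)))
      rw [e4, e4, e2, e2] at h1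
      exact h1
  intro y hy
  rw [key hi, key hj]
  exact hr _ (cM_map (τ.symm : ℂ →+* ℂ) hy)

end Mat

end Pool.Agent.K6.H85.SM
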