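import Mathlib

set_option autoImplicit false
set_option linter.unusedSectionVars false
set_option linter.unusedVariables false

/-!
# Subalgebras of a sum of simple Lie algebras (of elements of an associative algebra)
-/

open Module

noncomputable section

namespace Pool.Agent.K6.H85.SM

variable {𝔼 : Type*} [Ring 𝔼] [Algebra ℂ 𝔼]

/-- The element commutes with the subspace. -/
def Com (x : 𝔼) (I : Submodule ℂ 𝔼) : Prop := ∀ z ∈ I, x * z = z * x

/-- The bracket. -/
def bk (x y : 𝔼) : 𝔼 := x * y - y * x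

theorem bk_add (x y z : 𝔼) : bk (x + y) z = bk x z + bk y z := by unfold bk; noncomm_ring
theorem bk_add' (x y z : 𝔼) : bk x (y + z) = bk x y + bk x z := by unfold bk; noncomm_ring
theorem bk_sub (x y z : 𝔼) : bk (x - y) z = bk x z - bk y z := by unfold bk; noncomm_ring
theorem bk_sub' (x y z : 𝔼) : bk x (y - z) = bk x y - bk x z := by unfold bk; noncomm_ring
theorem bk_smul (c : ℂ) (x z : 𝔼) : bk (c • x) z = c • bk x z := by
  unfold bk; rw [smul_mul_assoc, mul_smul_comm, smul_sub]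
theorem bk_smul' (c : ℂ) (x z : 𝔼) : bk x (c • z) = c • bk x z := by
  unfold bk; rw [smul_mul_assoc, mul_smul_comm, smul_sub]
theorem bk_zero (z : 𝔼) : bk 0 z = 0 := by unfold bk; noncomm_ring
theorem bk_zero' (z : 𝔼) : bk z 0 = 0 := by unfold bk; noncomm_ring
theorem bk_anti (x y : 𝔼) : bk x y = -bk y x := by unfold bk; noncomm_ring
theorem bk_self (x : 𝔼) : bk x x = 0 := by unfold bk; noncomm_ring
theorem jac (x y z : 𝔼) : bk x (bk y z) = bk (bk x y) z + bk y (bk x z) := by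
  unfold bk; noncomm_ring

theorem bk_eq_zero {x y : 𝔼} : bk x y = 0 ↔ x * y = y * x := by unfold bk; rw [sub_eq_zero]

theorem com_iff {x : 𝔼} {I : Submodule ℂ 𝔼} : Com x I ↔ ∀ z ∈ I, bk x z = 0 := by
  unfold Com
  exact forall₂_congr fun _ _ => bk_eq_zero.symm

theorem Com.bk {x : 𝔼} {I : Submodule ℂ 𝔼} (h : Com x I) {z : 𝔼} (hz : z ∈ I) : bk x z = 0 :=
  com_iff.1 h z hz

theorem Com.zero (I : Submodule ℂ 𝔼) : Com 0 I := fun z _ => by rw [zero_mul, mul_zero]

theorem Com.add {x y : 𝔼} {I : Submodule ℂ 𝔼} (hx : Com x I) (hy : Com y I) : Com (x + y) I :=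
  fun z hz => by rw [add_mul, mul_add, hx z hz, hy z hz]

theorem Com.sub {x y : 𝔼} {I : Submodule ℂ 𝔼} (hx : Com x I) (hy : Com y I) : Com (x - y) I :=
  fun z hz => by rw [sub_mul, mul_sub, hx z hz, hy z hz]

theorem Com.neg {x : 𝔼} {I : Submodule ℂ 𝔼} (hx : Com x I) : Com (-x) I :=
  fun z hz => by rw [neg_mul, mul_neg, hx z hz]

theorem Com.smul {x : 𝔼} {I : Submodule ℂ 𝔼} (c : ℂ) (hx : Com x I) : Com (c • x) I :=
  fun z hz => by rw [smul_mul_assoc, mul_smul_comm, hx z hz]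

theorem Com.sum {ι : Type*} {s : Finset ι} {x : ι → 𝔼} {I : Submodule ℂ 𝔼}
    (h : ∀ i ∈ s, Com (x i) I) : Com (∑ i ∈ s, x i) I := by
  classical
  induction s using Finset.induction_on with
  | empty => rw [Finset.sum_empty]; exact Com.zero I
  | insert a s ha ih =>
    rw [Finset.sum_insert ha]
    exact (h a (Finset.mem_insert_self a s)).add (ih fun i hi => h i (Finset.mem_insert_of_mem hi))

/-- If `x` normalizes `I` and `u` commutes with `I` then `[x, u]` commutes with `I`. -/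
theorem Com.bk_right {x u : 𝔼} {I : Submodule ℂ 𝔼} (hx : ∀ z ∈ I, SM.bk x z ∈ I) (hu : Com u I) :
    Com (SM.bk x u) I := by
  rw [com_iff]
  intro z hz
  have h1 := jac x u z
  rw [hu.bk hz, bk_zero', hu.bk (hx z hz), add_zero] at h1
  exact h1.symm

theorem Com.bk_left {x u : 𝔼} {I : Submodule ℂ 𝔼} (hx : ∀ z ∈ I, SM.bk x z ∈ I) (hu : Com u I) :
    Com (SM.bk u x) I := by
  rw [bk_anti]
  exact (hu.bk_right hx).neg

/-- The decomposition of a Lie algebra into simple ideals. -/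
structure Ideals {k : ℕ} (L : Submodule ℂ 𝔼) (I : Fin k → Submodule ℂ 𝔼) : Prop where
  le : ∀ i, I i ≤ L
  dec : ∀ x ∈ L, ∃ c : Fin k → 𝔼, (∀ i, c i ∈ I i) ∧ x = ∑ i, c i
  comm : ∀ i j, i ≠ j → ∀ x ∈ I i, ∀ y ∈ I j, x * y = y * x
  br : ∀ i, ∀ x ∈ I i, ∀ y ∈ I i, x * y - y * x ∈ I i
  simple : ∀ i, ∀ N : Submodule ℂ 𝔼, N ≤ I i → (∀ x ∈ I i, ∀ y ∈ N, x * y - y * x ∈ N) →
    N = ⊥ ∨ N = I i
  nonab : ∀ i, ∃ x ∈ I i, ∃ y ∈ I i, x * y ≠ y * x

section Id

variable {k : ℕ} {L D : Submodule ℂ 𝔼} {I : Fin k → Submodule ℂ 𝔼}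

namespace Ideals

/-- A sum of components acts on an ideal by the component. -/
theorem bk_sum (h : Ideals L I) {c : Fin k → 𝔼} (hc : ∀ i, c i ∈ I i) {i : Fin k} {z : 𝔼}
    (hz : z ∈ I i) : bk (∑ l, c l) z = bk (c i) z := by
  unfold bk
  rw [Finset.sum_mul, Finset.mul_sum, ← Finset.sum_sub_distrib, Finset.sum_eq_single i]
  · intro b _ hb
    rw [h.comm b i hb _ (hc b) _ hz, sub_self]
  · intro h0
    exact absurd (Finset.mem_univ i) h0

theorem norm (h : Ideals L I) {x : 𝔼} (hx : x ∈ L) {i : Fin k} {z : 𝔼} (hz : z ∈ I i) :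
    bk x z ∈ I i := by
  obtain ⟨c, hc, rfl⟩ := h.dec x hx
  rw [h.bk_sum hc hz]
  exact h.br i _ (hc i) _ hz

/-- The centre of a simple ideal is zero. -/
theorem cen (h : Ideals L I) {i : Fin k} {w : 𝔼} (hw : w ∈ I i) (hc : Com w (I i)) : w = 0 := by
  let N : Submodule ℂ 𝔼 :=
    { carrier := {w | w ∈ I i ∧ Com w (I i)}
      add_mem' := fun {a b} ha hb => ⟨(I i).add_mem ha.1 hb.1, ha.2.add hb.2⟩
      zero_mem' := ⟨(I i).zero_mem, Com.zero _⟩
      smul_mem' := fun c a ha => ⟨(I i).smul_mem c ha.1, ha.2.smul c⟩ }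
  have h1 : N = ⊥ ∨ N = I i := by
    refine h.simple i N (fun x hx => hx.1) fun x hx y hy => ?_
    have : x * y - y * x = 0 := by rw [hy.2 x hx, sub_self]
    rw [this]
    exact N.zero_mem
  rcases h1 with h1 | h1
  · have h2 : w ∈ N := ⟨hw, hc⟩
    rw [h1, Submodule.mem_bot] at h2
    exact h2
  · obtain ⟨x, hx, y, hy, hxy⟩ := h.nonab i
    have h2 : x ∈ N := by rw [h1]; exact hx
    exact absurd (h2.2 y hy) hxy

theorem com_iff_comp (h : Ideals L I) {c : Fin k → 𝔼} (hc : ∀ i, c i ∈ I i) {i : Fin k} :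
    Com (∑ l, c l) (I i) ↔ c i = 0 := by
  rw [SM.com_iff]
  constructor
  · intro h1
    refine h.cen (hc i) (SM.com_iff.2 fun z hz => ?_)
    rw [← h.bk_sum hc hz]
    exact h1 z hz
  · intro h1 z hz
    rw [h.bk_sum hc hz, h1, bk_zero]

/-- The sum is direct. -/
theorem uniq (h : Ideals L I) {c c' : Fin k → 𝔼} (hc : ∀ i, c i ∈ I i) (hc' : ∀ i, c' i ∈ I i)
    (he : ∑ i, c i = ∑ i, c' i) : c = c' := by
  funext i
  have h1 : ∑ l, (c l - c' l) = 0 := by rw [Finset.sum_sub_distrib, he, sub_self]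
  have h2 : Com (∑ l, (c l - c' l)) (I i) := by rw [h1]; exact Com.zero _
  have h3 := (h.com_iff_comp (c := fun l => c l - c' l) (fun l => (I l).sub_mem (hc l) (hc' l))).1 h2
  exact sub_eq_zero.1 h3

theorem ne_bot (h : Ideals L I) (i : Fin k) : ∃ x ∈ I i, x ≠ 0 := by
  obtain ⟨x, hx, y, hy, hxy⟩ := h.nonab i
  refine ⟨x, hx, ?_⟩
  rintro rfl
  rw [zero_mul, mul_zero] at hxy
  exact hxy rfl

/-- A property which holds for brackets holds for all elements. -/
theorem ind (h : Ideals L I) {i : Fin k} {p : 𝔼 → Prop} (h0 : p 0)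
    (hadd : ∀ x y, p x → p y → p (x + y)) (hsmul : ∀ (c : ℂ) x, p x → p (c • x))
    (hbr : ∀ x ∈ I i, ∀ y ∈ I i, p (bk x y)) : ∀ x ∈ I i, p x := by
  let N : Submodule ℂ 𝔼 := Submodule.span ℂ {z | ∃ x ∈ I i, ∃ y ∈ I i, z = bk x y}
  have hN : N ≤ I i := by
    refine Submodule.span_le.2 ?_
    rintro _ ⟨x, hx, y, hy, rfl⟩
    exact h.br i x hx y hy
  have h1 : N = ⊥ ∨ N = I i := by
    refine h.simple i N hN fun x hx y hy => ?_
    exact Submodule.subset_span ⟨x, hx, y, hN hy, rfl⟩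
  have h2 : N = I i := by
    rcases h1 with h1 | h1
    · obtain ⟨x, hx, y, hy, hxy⟩ := h.nonab i
      have h2 : bk x y ∈ N := Submodule.subset_span ⟨x, hx, y, hy, rfl⟩
      rw [h1, Submodule.mem_bot, bk_eq_zero] at h2
      exact absurd h2 hxy
    · exact h1
  intro x hx
  rw [← h2] at hx
  induction hx using Submodule.span_induction with
  | mem z hz =>
    obtain ⟨x, hx, y, hy, rfl⟩ := hz
    exact hbr x hx y hy
  | zero => exact h0
  | add a b _ _ ha hb => exact hadd a b ha hb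
  | smul c a _ ha => exact hsmul c a ha

end Ideals

/-- The subspace `D` projects onto the ideal. -/
def Cov (D : Submodule ℂ 𝔼) (J : Submodule ℂ 𝔼) : Prop :=
  ∀ x ∈ J, ∃ y ∈ D, Com (y - x) J

/-- The relation between ideals defined by `D`. -/
def rel (D : Submodule ℂ 𝔼) (I : Fin k → Submodule ℂ 𝔼) (i j : Fin k) : Prop :=
  ∀ y ∈ D, Com y (I i) ↔ Com y (I j)

theorem rel_equiv (D : Submodule ℂ 𝔼) (I : Fin k → Submodule ℂ 𝔼) : Equivalence (rel D I) :=
  ⟨fun _ _ _ => Iff.rfl, fun h y hy => (h y hy).symm, fun h h' y hy => (h y hy).trans (h' y hy)⟩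

/-- The case of a part `e` of the representation on which the ideal acts nontrivially. -/
theorem part_inj (h : Ideals L I) {e : 𝔼} (he : ∀ x ∈ L, e * x = x * e) {i : Fin k}
    (hi : ∃ x ∈ I i, e * x ≠ 0) {w : 𝔼} (hw : w ∈ I i) (h0 : e * w = 0) : w = 0 := by
  let N : Submodule ℂ 𝔼 :=
    { carrier := {w | w ∈ I i ∧ e * w = 0}
      add_mem' := fun {a b} ha hb => ⟨(I i).add_mem ha.1 hb.1, by rw [mul_add, ha.2, hb.2, add_zero]⟩
      zero_mem' := ⟨(I i).zero_mem, mul_zero _⟩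
      smul_mem' := fun c a ha => ⟨(I i).smul_mem c ha.1, by rw [mul_smul_comm, ha.2, smul_zero]⟩ }
  have h1 : N = ⊥ ∨ N = I i := by
    refine h.simple i N (fun x hx => hx.1) fun x hx y hy => ⟨h.br i x hx y hy.1, ?_⟩
    rw [mul_sub, ← mul_assoc, ← mul_assoc, he x (h.le i hx), mul_assoc, hy.2, mul_zero,
      zero_mul, sub_zero]
  rcases h1 with h1 | h1
  · have h2 : w ∈ N := ⟨hw, h0⟩
    rw [h1, Submodule.mem_bot] at h2
    exact h2
  · obtain ⟨x, hx, hxe⟩ := hi
    have h2 : x ∈ N := by rw [h1]; exact hx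
    exact absurd h2.2 hxe

theorem part_com (h : Ideals L I) {e : 𝔼} (he : ∀ x ∈ L, e * x = x * e) {i : Fin k}
    (hi : ∃ x ∈ I i, e * x ≠ 0) {w : 𝔼} (hw : w ∈ L) (h0 : e * w = 0) : Com w (I i) := by
  rw [com_iff]
  intro z hz
  refine part_inj h he hi (h.norm hw hz) ?_
  unfold bk
  rw [mul_sub, ← mul_assoc, h0, zero_mul, ← mul_assoc, he z (h.le i hz), mul_assoc, h0, mul_zero,
    sub_zero]

theorem cov_of_part (h : Ideals L I) (hD : D ≤ L) {e : 𝔼} (he : ∀ x ∈ L, e * x = x * e)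
    (hs : ∀ x ∈ L, ∃ y ∈ D, e * x = e * y) {i : Fin k} (hi : ∃ x ∈ I i, e * x ≠ 0) :
    Cov D (I i) := by
  intro x hx
  obtain ⟨y, hy, hxy⟩ := hs x (h.le i hx)
  refine ⟨y, hy, part_com h he hi (L.sub_mem (hD hy) (h.le i hx)) ?_⟩
  rw [mul_sub, hxy, sub_self]

theorem not_rel_of_part (h : Ideals L I) (hD : D ≤ L) {e : 𝔼} (he : ∀ x ∈ L, e * x = x * e)
    (hs : ∀ x ∈ L, ∃ y ∈ D, e * x = e * y) {i j : Fin k} (hij : i ≠ j)
    (hi : ∃ x ∈ I i, e * x ≠ 0) (hj : ∃ x ∈ I j, e * x ≠ 0) : ¬ rel D I i j := by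
  intro hr
  obtain ⟨x, hx, z, hz, hxz⟩ := h.nonab i
  obtain ⟨y, hy, hxy⟩ := hs x (h.le i hx)
  have h0 : e * (y - x) = 0 := by rw [mul_sub, hxy, sub_self]
  have hm : y - x ∈ L := L.sub_mem (hD hy) (h.le i hx)
  have h1 : Com y (I j) := by
    have h2 := part_com h he hj hm h0
    have h3 : Com x (I j) := fun w hw => h.comm i j hij x hx w hw
    have h4 := h2.add h3
    rwa [sub_add_cancel] at h4
  have h2 := (hr y hy).2 h1
  have h3 := h2.sub (part_com h he hi hm h0)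
  rw [sub_sub_cancel] at h3
  exact hxz (h3 z hz)

variable (hb : ∀ x ∈ D, ∀ y ∈ D, bk x y ∈ D)

include hb in
/-- One half of the step. -/
theorem step_aux (h : Ideals L I) (hD : D ≤ L) {i j : Fin k} (hi : Cov D (I i)) {u₀ : 𝔼}
    (hu₀ : u₀ ∈ D) (hj₀ : Com u₀ (I j)) (hi₀ : ¬ Com u₀ (I i)) {x : 𝔼} (hx : x ∈ I i) :
    ∃ u ∈ D, Com u (I j) ∧ Com (u - x) (I i) := by
  let N : Submodule ℂ 𝔼 :=
    { carrier := {x | x ∈ I i ∧ ∃ u ∈ D, Com u (I j) ∧ Com (u - x) (I i)}
      add_mem' := by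
        rintro a b ⟨ha, u, hu, hu1, hu2⟩ ⟨hb, v, hv, hv1, hv2⟩
        refine ⟨(I i).add_mem ha hb, u + v, D.add_mem hu hv, hu1.add hv1, ?_⟩
        rw [add_sub_add_comm]
        exact hu2.add hv2
      zero_mem' := ⟨(I i).zero_mem, 0, D.zero_mem, Com.zero _, by rw [sub_zero]; exact Com.zero _⟩
      smul_mem' := by
        rintro c a ⟨ha, u, hu, hu1, hu2⟩
        refine ⟨(I i).smul_mem c ha, c • u, D.smul_mem c hu, hu1.smul c, ?_⟩
        rw [← smul_sub]
        exact hu2.smul c }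
  have h1 : N = ⊥ ∨ N = I i := by
    refine h.simple i N (fun x hx => hx.1) ?_
    rintro z hz x ⟨hx, u, hu, hu1, hu2⟩
    obtain ⟨y, hy, hyz⟩ := hi z hz
    refine ⟨h.br i z hz x hx, bk y u, hb y hy u hu, hu1.bk_right fun w hw => h.norm (hD hy) hw, ?_⟩
    have e1 : bk y u - (z * x - x * z) = bk (y - z) u + bk z (u - x) := by
      unfold bk; noncomm_ring
    rw [e1]
    exact (hyz.bk_left fun w hw => h.norm (hD hu) hw).add
      (hu2.bk_right fun w hw => h.norm (h.le i hz) hw)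
  rcases h1 with h1 | h1
  · obtain ⟨c, hc, rfl⟩ := h.dec u₀ (hD hu₀)
    have h2 : c i ∈ N := by
      refine ⟨hc i, _, hu₀, hj₀, ?_⟩
      rw [SM.com_iff]
      intro z hz
      rw [bk_sub, h.bk_sum hc hz, sub_self]
    rw [h1, Submodule.mem_bot] at h2
    exact absurd ((h.com_iff_comp hc).2 h2) hi₀
  · have h2 : x ∈ N := by rw [h1]; exact hx
    exact h2.2

include hb in
theorem step (h : Ideals L I) (hD : D ≤ L) {i j : Fin k} (hi : Cov D (I i)) (hj : Cov D (I j))
    (hr : ¬ rel D I i j) {x : 𝔼} (hx : x ∈ I i) : ∃ u ∈ D, Com u (I j) ∧ Com (u - x) (I i) := by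
  unfold rel at hr
  push Not at hr
  obtain ⟨u₀, hu₀, h1 | h1⟩ := hr
  · obtain ⟨y, hy, hyx⟩ := hi x hx
    obtain ⟨c, hc, hce⟩ := h.dec y (hD hy)
    obtain ⟨u, hu, hu1, hu2⟩ := step_aux hb h hD hj hu₀ h1.1 h1.2 (hc j)
    refine ⟨y - u, D.sub_mem hy hu, ?_, ?_⟩
    · have h3 : Com (y - c j) (I j) := by
        rw [SM.com_iff]
        intro z hz
        rw [hce, bk_sub, h.bk_sum hc hz, sub_self]
      have h4 := h3.sub hu2
      rwa [sub_sub_sub_cancel_right] at h4
    · have h4 := hyx.sub hu1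
      rwa [sub_right_comm] at h4
  · exact step_aux hb h hD hi hu₀ h1.2 h1.1 hx

include hb in
theorem multi (h : Ideals L I) (hD : D ≤ L) (hcov : ∀ i, Cov D (I i))
    (hr : ∀ i j, i ≠ j → ¬ rel D I i j) (i : Fin k) (s : Finset (Fin k)) :
    ∀ x ∈ I i, ∃ u ∈ D, (∀ j ∈ s, j ≠ i → Com u (I j)) ∧ Com (u - x) (I i) := by
  classical
  induction s using Finset.induction_on with
  | empty =>
    intro x hx
    obtain ⟨y, hy, hyx⟩ := hcov i x hx
    exact ⟨y, hy, fun j hj => absurd hj (Finset.notMem_empty j), hyx⟩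
  | insert a s ha ih =>
    by_cases hai : a = i
    · intro x hx
      obtain ⟨u, hu, h1, h2⟩ := ih x hx
      refine ⟨u, hu, fun j hj hji => ?_, h2⟩
      rcases Finset.mem_insert.1 hj with h3 | h3
      · exact absurd (h3.trans hai) hji
      · exact h1 j h3 hji
    · refine h.ind ⟨0, D.zero_mem, fun _ _ _ => Com.zero _, by rw [sub_zero]; exact Com.zero _⟩ ?_ ?_ ?_
      · rintro x y ⟨u, hu, h1, h2⟩ ⟨v, hv, h3, h4⟩
        exact ⟨u + v, D.add_mem hu hv, fun j hj hji => (h1 j hj hji).add (h3 j hj hji), by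
          rw [add_sub_add_comm]; exact h2.add h4⟩
      · rintro c x ⟨u, hu, h1, h2⟩
        exact ⟨c • u, D.smul_mem c hu, fun j hj hji => (h1 j hj hji).smul c, by
          rw [← smul_sub]; exact h2.smul c⟩
      · intro x hx y hy
        obtain ⟨u, hu, h1, h2⟩ := ih x hx
        obtain ⟨v, hv, h3, h4⟩ := step hb h hD (hcov i) (hcov a) (hr i a (Ne.symm hai)) hy
        refine ⟨bk u v, hb u hu v hv, fun j hj hji => ?_, ?_⟩
        · rcases Finset.mem_insert.1 hj with h5 | h5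
          · rw [h5]
            exact h3.bk_right fun w hw => h.norm (hD hu) hw
          · exact (h1 j h5 hji).bk_left fun w hw => h.norm (hD hv) hw
        · have e1 : bk u v - bk x y = bk (u - x) v + bk x (v - y) := by
            unfold bk; noncomm_ring
          rw [e1]
          exact (h2.bk_left fun w hw => h.norm (hD hv) hw).add
            (h4.bk_right fun w hw => h.norm (h.le i hx) hw)

include hb in
/-- **A subalgebra which projects onto all simple ideals and does not identify two of them is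
everything.** -/
theorem all (h : Ideals L I) (hD : D ≤ L) (hcov : ∀ i, Cov D (I i))
    (hr : ∀ i j, i ≠ j → ¬ rel D I i j) : L ≤ D := by
  classical
  intro x hx
  obtain ⟨c, hc, rfl⟩ := h.dec x hx
  refine Submodule.sum_mem _ fun i _ => ?_
  obtain ⟨u, hu, h1, h2⟩ := multi hb h hD hcov hr i Finset.univ (c i) (hc i)
  have h3 : u - c i = 0 := by
    obtain ⟨d, hd, hde⟩ := h.dec (u - c i) (L.sub_mem (hD hu) (h.le i (hc i)))
    rw [hde]
    refine Finset.sum_eq_zero fun j _ => ?_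
    refine (h.com_iff_comp hd).1 ?_
    rw [← hde]
    by_cases hji : j = i
    · rw [hji]; exact h2
    · exact (h1 j (Finset.mem_univ j) hji).sub fun w hw => h.comm i j (Ne.symm hji) _ (hc i) w hw
  rw [sub_eq_zero.1 h3] at hu
  exact hu

/-- The action on the ideal. -/
def adI (J : Submodule ℂ 𝔼) : 𝔼 →ₗ[ℂ] (J →ₗ[ℂ] 𝔼) where
  toFun x :=
    { toFun := fun z => bk x z
      map_add' := fun a b => bk_add' _ _ _
      map_smul' := fun c a => bk_smul' _ _ _ }
  map_add' x y := by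
    refine LinearMap.ext fun z => ?_
    exact bk_add _ _ _
  map_smul' c x := by
    refine LinearMap.ext fun z => ?_
    exact bk_smul _ _ _

theorem adI_eq_zero {J : Submodule ℂ 𝔼} {x : 𝔼} : adI J x = 0 ↔ Com x J := by
  rw [com_iff]
  constructor
  · intro h z hz
    exact LinearMap.congr_fun h ⟨z, hz⟩
  · intro h
    refine LinearMap.ext fun z => h z z.2

theorem finrank_aux [FiniteDimensional ℂ 𝔼] (h : Ideals L I) (hD : D ≤ L) {i : Fin k}
    (hi : Cov D (I i)) :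
    finrank ℂ (I i) + finrank ℂ (LinearMap.ker ((adI (I i)).domRestrict D)) = finrank ℂ D := by
  have h1 := LinearMap.finrank_range_add_finrank_ker ((adI (I i)).domRestrict D)
  have h2 : LinearMap.range ((adI (I i)).domRestrict D) =
      LinearMap.range ((adI (I i)).domRestrict (I i)) := by
    ext φ
    constructor
    · rintro ⟨y, rfl⟩
      obtain ⟨c, hc, hce⟩ := h.dec y (hD y.2)
      refine ⟨⟨c i, hc i⟩, ?_⟩
      change adI (I i) (c i) = adI (I i) y
      rw [← sub_eq_zero, ← map_sub, adI_eq_zero, com_iff]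
      intro z hz
      rw [hce, bk_sub, h.bk_sum hc hz, sub_self]
    · rintro ⟨x, rfl⟩
      obtain ⟨y, hy, hyx⟩ := hi x x.2
      refine ⟨⟨y, hy⟩, ?_⟩
      have h3 := adI_eq_zero.2 hyx
      rw [map_sub, sub_eq_zero] at h3
      exact h3
  have h3 : finrank ℂ (LinearMap.range ((adI (I i)).domRestrict (I i))) = finrank ℂ (I i) := by
    refine LinearMap.finrank_range_of_inj ?_
    rw [← LinearMap.ker_eq_bot, Submodule.eq_bot_iff]
    intro x hx
    exact Subtype.ext (h.cen x.2 (adI_eq_zero.1 (LinearMap.mem_ker.1 hx)))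
  rw [← h1, h2, h3]

/-- Identified ideals have the same dimension. -/
theorem finrank_eq [FiniteDimensional ℂ 𝔼] (h : Ideals L I) (hD : D ≤ L) {i j : Fin k}
    (hi : Cov D (I i)) (hj : Cov D (I j)) (hr : rel D I i j) :
    finrank ℂ (I i) = finrank ℂ (I j) := by
  have h1 := finrank_aux h hD hi
  have h2 := finrank_aux h hD hj
  have h3 : LinearMap.ker ((adI (I i)).domRestrict D) =
      LinearMap.ker ((adI (I j)).domRestrict D) := by
    ext y
    rw [LinearMap.mem_ker, LinearMap.mem_ker]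
    change adI (I i) y = 0 ↔ adI (I j) y = 0
    rw [adI_eq_zero, adI_eq_zero]
    exact hr y y.2
  rw [h3] at h1
  omega

end Id

end Pool.Agent.K6.H85.SM
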