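import Pool.Agent.K6.H85.SM.Gal

set_option autoImplicit false
set_option linter.unusedSectionVars false
set_option linter.unusedVariables false

/-!
# Abelian varieties with many good parts
-/

open Module Matrix Function Pool.Agent.Y102 Pool.Agent.W516.DR Pool.Agent.H204R3.GP
  Pool.Agent.N208.AM Pool.Agent.N208.AD Pool.Agent.N208.BT Pool.Agent.N208.CT
  Pool.Agent.N113.BT Pool.Agent.R917.DT Pool.Agent.N208.OU Pool.Agent.K6.H85.SC

noncomputable section

namespace Pool.Agent.K6.H85.SM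

open scoped TensorProduct

variable {g : ℕ} {C : AbVar g}

theorem selfFac (C : AbVar g) : Fac C C (LinearMap.id : C.H1 →ₗ[ℚ] C.H1) LinearMap.id := by
  classical
  have h1 : Hm C C (LinearMap.id : C.H1 →ₗ[ℚ] C.H1) := by
    refine ⟨⟨LinearMap.id, fun _ => rfl⟩, ⟨fun i j => if i = j then 1 else 0, fun i w => ?_⟩⟩
    rw [Finset.sum_eq_single i]
    · beta_reduce
      rw [if_pos rfl, map_one, one_mul]
      rfl
    · intro b _ hb
      beta_reduce
      rw [if_neg (Ne.symm hb), map_zero, zero_mul]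
    · intro h0
      exact absurd (Finset.mem_univ i) h0
  exact ⟨h1, h1, fun _ => rfl⟩

/-- The real matrices of the derived algebra. -/
abbrev mR (C : AbVar g) : Submodule ℝ (Matrix (Fin (2 * g)) (Fin (2 * g)) ℝ) :=
  spR (hB (LinearMap.id : C.H1 →ₗ[ℚ] C.H1)) (der C.NA : Set (Module.End ℚ C.H1))

theorem rel_self {X : Module.End ℚ C.H1} (hX : X ∈ C.NA) :
    ∃ M : Matrix (Fin (2 * g)) (Fin (2 * g)) ℚ,
      Rel (hB (LinearMap.id : C.H1 →ₗ[ℚ] C.H1)) X M ∧ cq M = (toC X)ᵀ := by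
  obtain ⟨M, hM⟩ := (mot (selfFac C)).st X hX
  refine ⟨M, hM, ?_⟩
  have h1 := rel_rs (selfFac C) hX hM
  have h2 : (rs (LinearMap.id : C.H1 →ₗ[ℚ] C.H1) LinearMap.id X :
      (Fin (2 * g) → ℚ) →ₗ[ℚ] (Fin (2 * g) → ℚ)) = X := rfl
  rw [h2] at h1
  rw [← h1, Matrix.transpose_transpose]

theorem mR_mem {a : Matrix (Fin (2 * g)) (Fin (2 * g)) ℝ} (ha : a ∈ mR C) :
    cxm a ∈ tM (cM (der C.NA)) := by
  induction ha using Submodule.span_induction with
  | mem a ha =>
    obtain ⟨X, hX, M, hM, rfl⟩ := ha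
    have h1 := rel_rs (selfFac C) (der_NA_le hX) hM
    rw [mem_tM, cxm_rq, h1]
    exact mem_cM hX
  | zero => rw [cxm_zero]; exact Submodule.zero_mem _
  | add a b _ _ ha hb => rw [cxm_add]; exact Submodule.add_mem _ ha hb
  | smul c a _ ha => rw [cxm_smul]; exact Submodule.smul_mem _ _ ha

/-- The complex span and the real span. -/
theorem mem_iff (x : Matrix (Fin (2 * g)) (Fin (2 * g)) ℂ) :
    x ∈ tM (cM (der C.NA)) ↔ reM x ∈ mR C ∧ imM x ∈ mR C := by
  constructor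
  · intro hx
    rw [mem_tM] at hx
    have key : ∀ y ∈ cM (der C.NA), reM yᵀ ∈ mR C ∧ imM yᵀ ∈ mR C := by
      intro y hy
      induction hy using Submodule.span_induction with
      | mem y hy =>
        obtain ⟨X, hX, rfl⟩ := hy
        obtain ⟨M, hM, hMX⟩ := rel_self (der_NA_le hX)
        rw [← hMX, reM_cq, imM_cq]
        exact ⟨mem_spR hX hM, Submodule.zero_mem _⟩
      | zero =>
        have h1 : reM (0 : Matrix (Fin (2 * g)) (Fin (2 * g)) ℂ)ᵀ = 0 := by ext i j; simp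
        have h2 : imM (0 : Matrix (Fin (2 * g)) (Fin (2 * g)) ℂ)ᵀ = 0 := by ext i j; simp
        rw [h1, h2]
        exact ⟨Submodule.zero_mem _, Submodule.zero_mem _⟩
      | add a b _ _ ha hb =>
        rw [Matrix.transpose_add, reM_add, imM_add]
        exact ⟨Submodule.add_mem _ ha.1 hb.1, Submodule.add_mem _ ha.2 hb.2⟩
      | smul c a _ ha =>
        rw [Matrix.transpose_smul, reM_smul, imM_smul]
        exact ⟨Submodule.sub_mem _ (Submodule.smul_mem _ _ ha.1) (Submodule.smul_mem _ _ ha.2),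
          Submodule.add_mem _ (Submodule.smul_mem _ _ ha.2) (Submodule.smul_mem _ _ ha.1)⟩
    have h1 := key _ hx
    rwa [Matrix.transpose_transpose] at h1
  · rintro ⟨h1, h2⟩
    rw [eq_re_im x]
    exact Submodule.add_mem _ (mR_mem h1) (Submodule.smul_mem _ _ (mR_mem h2))

section Rel

variable {k : ℕ} {I : Fin k → Submodule ℂ (Matrix (Fin (2 * g)) (Fin (2 * g)) ℂ)}
  {𝔮 : Submodule ℚ (Module.End ℚ C.H1)}

theorem der_le_der (hq : C.Full 𝔮) : der 𝔮 ≤ der C.NA := by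
  unfold der
  exact Submodule.span_mono fun _ ⟨X, hX, Y, hY, e⟩ => ⟨X, hq.le hX, Y, hq.le hY, e⟩

theorem der_br (hq : C.Full 𝔮) : ∀ X ∈ der 𝔮, ∀ Y ∈ der 𝔮, X * Y - Y * X ∈ der 𝔮 :=
  fun X hX Y hY => Submodule.subset_span ⟨X, hq.der_le hX, Y, hq.der_le hY, rfl⟩

/-- The rule for compact ideals. -/
theorem compact_rule (h : Ideals (cM (der C.NA)) I) (hq : C.Full 𝔮) {i j : Fin k}
    (hi : Cov (cM (der 𝔮)) (I i)) (hr : rel (cM (der 𝔮)) I i j) (hj : Com (jM C) (I j)) :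
    Com (jM C) (I i) := by
  obtain ⟨N, hN, t, X, M, h1, h2⟩ := exists_J (mot (selfFac C))
  have h4 : N ∈ spR (hB (LinearMap.id : C.H1 →ₗ[ℚ] C.H1)) (C.NA : Set (Module.End ℚ C.H1)) := by
    rw [h2]
    exact Submodule.sum_mem _ fun k _ => Submodule.smul_mem _ _ (mem_spR (h1 k).1 (h1 k).2)
  obtain ⟨Nc, hNc, Nd, hNd, hNe⟩ := exists_dec (mot (selfFac C)) h4
  have hd := dat (mot (selfFac C)) hN hNc hNd hNe
  have hle : mR C ≤ spR (hB (LinearMap.id : C.H1 →ₗ[ℚ] C.H1)) (C.NA : Set (Module.End ℚ C.H1)) :=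
    spR_mono der_NA_le
  have hc : ∀ l, Com (cxm Nc) (tM (I l)) := by
    intro l
    rw [com_iff]
    intro z hz
    obtain ⟨h5, h6⟩ := (mem_iff z).1 (h.tr.le l hz)
    rw [eq_re_im z, bk_add', bk_smul', ← cxm_br, ← cxm_br,
      cenA_br (mot (selfFac C)) hNc (hle h5), cenA_br (mot (selfFac C)) hNc (hle h6), cxm_zero,
      smul_zero, add_zero]
  have key : ∀ l, Com (jM C) (I l) ↔ Com (cxm Nd) (tM (I l)) := by
    intro l
    rw [← jM_eq (selfFac C) hN, ← com_tM, hNe, cxm_add]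
    constructor
    · intro h5
      have h6 := h5.sub (hc l)
      rwa [add_sub_cancel_left] at h6
    · intro h5
      exact (hc l).add h5
  rw [key] at hj ⊢
  refine compact_of_rel (D := tM (cM (der 𝔮))) hd mem_iff h.tr
    (tM_mono (cM_mono (der_le_der hq))) ?_ ?_ hi.tr (rel_tr hr) hj
  · intro x hx y hy
    rw [mem_tM, tr_bk]
    exact cM_br (der_br hq) _ hy _ hx
  · intro x hx
    rw [mem_tM]
    exact cM_map (starRingEnd ℂ) hx

/-- Good parts, in terms of matrices. -/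
theorem part_com' {E : Matrix (Fin (2 * g)) (Fin (2 * g)) ℂ} (hE : GPart C (matE (2 * g) E)) :
    ∀ x ∈ cM (der C.NA), E * x = x * E := by
  intro x hx
  refine (matE (2 * g)).injective ?_
  rw [map_mul, map_mul]
  exact hE.comm _ (matE_mem.2 (cM_mono der_NA_le hx))

theorem part_surj {E : Matrix (Fin (2 * g)) (Fin (2 * g)) ℂ} (hE : GPart C (matE (2 * g) E))
    (hq : C.Full 𝔮) : ∀ x ∈ cM (der C.NA), ∃ y ∈ cM (der 𝔮), E * x = E * y := by
  intro x hx
  induction hx using Submodule.span_induction with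
  | mem x hx =>
    obtain ⟨X, hX, rfl⟩ := hx
    obtain ⟨y, hy, h1⟩ := hE.der 𝔮 hq X hX
    obtain ⟨y', rfl⟩ := (matE (2 * g)).surjective y
    refine ⟨y', matE_mem.1 hy, (matE (2 * g)).injective ?_⟩
    rw [map_mul, map_mul, ← h1]
    exact congrArg _ (matE_toC X)
  | zero => exact ⟨0, Submodule.zero_mem _, rfl⟩
  | add a b _ _ ha hb =>
    obtain ⟨x, hx, h1⟩ := ha
    obtain ⟨y, hy, h2⟩ := hb
    exact ⟨x + y, Submodule.add_mem _ hx hy, by rw [mul_add, mul_add, h1, h2]⟩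
  | smul c a _ ha =>
    obtain ⟨x, hx, h1⟩ := ha
    exact ⟨c • x, Submodule.smul_mem _ _ hx, by rw [mul_smul_comm, mul_smul_comm, h1]⟩

/-- The ideal acts nontrivially on a good part. -/
def Covd (C : AbVar g) (J : Submodule ℂ (Matrix (Fin (2 * g)) (Fin (2 * g)) ℂ)) : Prop :=
  ∃ E : Matrix (Fin (2 * g)) (Fin (2 * g)) ℂ, GPart C (matE (2 * g) E) ∧ ∃ x ∈ J, E * x ≠ 0

/-- The properties of the identifications. -/
structure Idn (C : AbVar g) (I : Fin k → Submodule ℂ (Matrix (Fin (2 * g)) (Fin (2 * g)) ℂ))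
    (r : Fin k → Fin k → Prop) : Prop where
  equiv : Equivalence r
  galois : ∀ (τ : ℂ ≃+* ℂ) (i i' j j' : Fin k), (∀ x, x ∈ I i ↔ x.map τ ∈ I i') →
    (∀ x, x ∈ I j ↔ x.map τ ∈ I j') → r i j → r i' j'
  rank : ∀ i j, r i j → finrank ℂ (I i) = finrank ℂ (I j)
  compact : ∀ i j, r i j → (Com (jM C) (I i) ↔ Com (jM C) (I j))
  part : ∀ i j, i ≠ j → r i j → ∀ E, GPart C (matE (2 * g) E) →
    (∀ x ∈ I i, E * x = 0) ∨ ∀ x ∈ I j, E * x = 0

/-- **Many good parts**: if every simple ideal acts nontrivially on a good part and the simple ideals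
cannot be identified, then every full subalgebra contains the derived algebra. -/
theorem gPart_one (h : Ideals (cM (der C.NA)) I) (hcov : ∀ i, Covd C (I i))
    (hind : ∀ r, Idn C I r → ∀ i j, r i j → i = j) : GPart C (matE (2 * g) 1) := by
  refine ⟨fun x _ => by rw [map_one, one_mul, mul_one], fun 𝔮 hq X hX => ?_⟩
  have hDL : cM (der 𝔮) ≤ cM (der C.NA) := cM_mono (der_le_der hq)
  have hc : ∀ i, Cov (cM (der 𝔮)) (I i) := by
    intro i
    obtain ⟨E, hE, hEi⟩ := hcov i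
    exact cov_of_part h hDL (part_com' hE) (part_surj hE hq) hEi
  have hr : Idn C I (rel (cM (der 𝔮)) I) :=
    { equiv := rel_equiv _ _
      galois := fun τ i i' j j' hi hj hr => rel_gal τ hi hj hr
      rank := fun i j hr => finrank_eq h hDL (hc i) (hc j) hr
      compact := fun i j hr => ⟨fun hi => compact_rule h hq (hc j)
        (fun y hy => (hr y hy).symm) hi, fun hj => compact_rule h hq (hc i) hr hj⟩
      part := fun i j hij hr E hE => by
        by_contra hcon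
        push Not at hcon
        exact not_rel_of_part h hDL (part_com' hE) (part_surj hE hq) hij hcon.1 hcon.2 hr }
  have h1 := all (D := cM (der 𝔮)) (cM_br (der_br hq)) h hDL hc
    fun i j hij hrij => hij (hind _ hr i j hrij)
  refine ⟨X.baseChange ℂ, ?_, rfl⟩
  have h2 := matE_mem.2 (h1 (mem_cM hX))
  rw [← matE_toC X]
  exact h2

end Rel

section Fac

variable {g' : ℕ} {A : AbVar g'} {f : A.H1 →ₗ[ℚ] C.H1} {p : C.H1 →ₗ[ℚ] A.H1}

/-- The condition on the domain is satisfied for the whole homology. -/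
theorem dm_one (h : Fac A C f p) : Dm p (matE (2 * g) (1 : Matrix (Fin (2 * g)) (Fin (2 * g)) ℂ)) := by
  refine dm_of h fun k c X hX h0 => ?_
  rw [Matrix.one_mul] at h0
  have h2 : ∀ j, toC (rs f p (X j) : (Fin (2 * g') → ℚ) →ₗ[ℚ] (Fin (2 * g') → ℚ)) =
      (LinearMap.toMatrix' (p : (Fin (2 * g) → ℚ) →ₗ[ℚ] (Fin (2 * g') → ℚ))).map (algebraMap ℚ ℂ) *
        (toC (X j) * (LinearMap.toMatrix'
          (f : (Fin (2 * g') → ℚ) →ₗ[ℚ] (Fin (2 * g) → ℚ))).map (algebraMap ℚ ℂ)) := by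
    intro j
    rw [toC_eq, toC_eq, ← Matrix.map_mul, ← Matrix.map_mul, ← LinearMap.toMatrix'_comp,
      ← LinearMap.toMatrix'_comp]
    rfl
  have h1 : ∑ j, c j • toC (rs f p (X j) : (Fin (2 * g') → ℚ) →ₗ[ℚ] (Fin (2 * g') → ℚ)) = 0 := by
    have h3 : ∀ j, c j • toC (rs f p (X j) : (Fin (2 * g') → ℚ) →ₗ[ℚ] (Fin (2 * g') → ℚ)) =
        (LinearMap.toMatrix' (p : (Fin (2 * g) → ℚ) →ₗ[ℚ] (Fin (2 * g') → ℚ))).map
          (algebraMap ℚ ℂ) * ((c j • toC (X j)) * (LinearMap.toMatrix'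
            (f : (Fin (2 * g') → ℚ) →ₗ[ℚ] (Fin (2 * g) → ℚ))).map (algebraMap ℚ ℂ)) := by
      intro j
      rw [h2, Matrix.smul_mul, Matrix.mul_smul]
    rw [Finset.sum_congr rfl fun j _ => h3 j, ← Matrix.mul_sum, ← Matrix.sum_mul, h0,
      Matrix.zero_mul, Matrix.mul_zero]
  rw [h1, zero_mul, mul_zero]

end Fac

end Pool.Agent.K6.H85.SM
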