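import Pool.Agent.K6.H85.SM.Lie
import Pool.Agent.N113.BT.Core

set_option autoImplicit false
set_option linter.unusedSectionVars false
set_option linter.unusedVariables false

/-!
# Identified ideals are both compact or both noncompact
-/

open Module Matrix Pool.Agent.N208.AM Pool.Agent.N113.BT

noncomputable section

namespace Pool.Agent.K6.H85.SM

variable {n : ℕ}

/-- The complex conjugate of a matrix. -/
def cj (x : Matrix (Fin n) (Fin n) ℂ) : Matrix (Fin n) (Fin n) ℂ := x.map (starRingEnd ℂ)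

theorem cj_mul (x y : Matrix (Fin n) (Fin n) ℂ) : cj (x * y) = cj x * cj y := by
  unfold cj; rw [Matrix.map_mul]

theorem cj_add (x y : Matrix (Fin n) (Fin n) ℂ) : cj (x + y) = cj x + cj y := by
  ext i j; simp [cj]

theorem cj_sub (x y : Matrix (Fin n) (Fin n) ℂ) : cj (x - y) = cj x - cj y := by
  ext i j; simp [cj]

theorem cj_smul (c : ℂ) (x : Matrix (Fin n) (Fin n) ℂ) : cj (c • x) = (starRingEnd ℂ c) • cj x := by
  ext i j; simp [cj]

theorem cj_zero : cj (0 : Matrix (Fin n) (Fin n) ℂ) = 0 := by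
  ext i j; simp [cj]

theorem cj_sum {ι : Type*} (s : Finset ι) (f : ι → Matrix (Fin n) (Fin n) ℂ) :
    cj (∑ i ∈ s, f i) = ∑ i ∈ s, cj (f i) := by
  classical
  induction s using Finset.induction_on with
  | empty => rw [Finset.sum_empty, Finset.sum_empty, cj_zero]
  | insert a s ha ih => rw [Finset.sum_insert ha, Finset.sum_insert ha, cj_add, ih]

theorem cj_cj (x : Matrix (Fin n) (Fin n) ℂ) : cj (cj x) = x := by
  ext i j; simp [cj]

theorem cj_bk (x y : Matrix (Fin n) (Fin n) ℂ) : cj (bk x y) = bk (cj x) (cj y) := by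
  unfold bk; rw [cj_sub, cj_mul, cj_mul]

theorem cj_cxm (a : Matrix (Fin n) (Fin n) ℝ) : cj (cxm a) = cxm a := by
  ext i j; simp [cj, cxm]

theorem reM_cj (x : Matrix (Fin n) (Fin n) ℂ) : reM (cj x) = reM x := by
  ext i j; simp [cj]

theorem imM_cj (x : Matrix (Fin n) (Fin n) ℂ) : imM (cj x) = -imM x := by
  ext i j; simp [cj]

theorem cxm_add (a b : Matrix (Fin n) (Fin n) ℝ) : cxm (a + b) = cxm a + cxm b := by
  ext i j; simp [cxm]

theorem cxm_sub (a b : Matrix (Fin n) (Fin n) ℝ) : cxm (a - b) = cxm a - cxm b := by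
  ext i j; simp [cxm]

theorem cxm_mul (a b : Matrix (Fin n) (Fin n) ℝ) : cxm (a * b) = cxm a * cxm b := by
  ext i j; simp [cxm, Matrix.mul_apply]

theorem cxm_smul (c : ℝ) (a : Matrix (Fin n) (Fin n) ℝ) : cxm (c • a) = (c : ℂ) • cxm a := by
  ext i j; simp [cxm]

theorem cxm_br (a b : Matrix (Fin n) (Fin n) ℝ) : cxm (RLie.br a b) = bk (cxm a) (cxm b) := by
  rw [RLie.br_apply, cxm_sub, cxm_mul, cxm_mul]; rfl

theorem cxm_zero : cxm (0 : Matrix (Fin n) (Fin n) ℝ) = 0 := by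
  ext i j; simp [cxm]

theorem reM_cxm (a : Matrix (Fin n) (Fin n) ℝ) : reM (cxm a) = a := by
  ext i j; simp [cxm]

theorem imM_cxm (a : Matrix (Fin n) (Fin n) ℝ) : imM (cxm a) = 0 := by
  ext i j; simp [cxm]

theorem cxm_inj {a b : Matrix (Fin n) (Fin n) ℝ} (h : cxm a = cxm b) : a = b := by
  rw [← reM_cxm a, h, reM_cxm]

theorem eq_re_im (x : Matrix (Fin n) (Fin n) ℂ) : x = cxm (reM x) + Complex.I • cxm (imM x) := by
  ext i j
  simp only [cxm, Matrix.add_apply, Matrix.smul_apply, Matrix.map_apply, smul_eq_mul]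
  rw [mul_comm]
  exact (Complex.re_add_im _).symm

theorem cxm_re (x : Matrix (Fin n) (Fin n) ℂ) : cxm (reM x) = (1 / 2 : ℂ) • (x + cj x) := by
  ext i j
  simp only [cxm, cj, Matrix.add_apply, Matrix.smul_apply, Matrix.map_apply, smul_eq_mul]
  rw [Complex.add_conj]
  push_cast
  ring

theorem cxm_im (x : Matrix (Fin n) (Fin n) ℂ) :
    cxm (imM x) = (-(Complex.I / 2) : ℂ) • (x - cj x) := by
  ext i j
  simp only [cxm, cj, Matrix.sub_apply, Matrix.smul_apply, Matrix.map_apply, smul_eq_mul]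
  rw [Complex.sub_conj]
  push_cast
  have h := Complex.I_mul_I
  linear_combination ((x i j).im : ℂ) * h

theorem cxm_re_of_cj {x : Matrix (Fin n) (Fin n) ℂ} (h : cj x = x) : cxm (reM x) = x := by
  rw [cxm_re, h, ← two_smul ℂ x, smul_smul]
  norm_num

/-- The real part of the trace form. -/
theorem tr_re (a b c d : Matrix (Fin n) (Fin n) ℝ) :
    ((cxm a + Complex.I • cxm b) * (cxm c - Complex.I • cxm d)).trace.re =
      (a * c).trace + (b * d).trace := by
  have h1 : (cxm a + Complex.I • cxm b) * (cxm c - Complex.I • cxm d) =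
      cxm (a * c) + cxm (b * d) + Complex.I • (cxm (b * c) - cxm (a * d)) := by
    rw [cxm_mul, cxm_mul, cxm_mul, cxm_mul, add_mul, mul_sub, mul_sub, smul_mul_assoc,
      smul_mul_assoc, mul_smul_comm, mul_smul_comm, smul_smul, Complex.I_mul_I]
    module
  have h2 : ∀ e : Matrix (Fin n) (Fin n) ℝ, (cxm e).trace = (e.trace : ℂ) := by
    intro e
    simp [Matrix.trace, cxm]
  rw [h1, Matrix.trace_add, Matrix.trace_add, Matrix.trace_smul, Matrix.trace_sub, h2, h2, h2, h2]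
  simp

section Main

variable {m : Submodule ℝ (Matrix (Fin n) (Fin n) ℝ)} {N : Matrix (Fin n) (Fin n) ℝ}
  {k : ℕ} {L D : Submodule ℂ (Matrix (Fin n) (Fin n) ℂ)}
  {I : Fin k → Submodule ℂ (Matrix (Fin n) (Fin n) ℂ)}

/-- The trace form vanishes on different ideals. -/
theorem tr_zero (h : Ideals L I) {i : Fin k} {z : Matrix (Fin n) (Fin n) ℂ} (hz : Com z (I i)) :
    ∀ x ∈ I i, (x * z).trace = 0 := by
  refine h.ind (by rw [zero_mul, Matrix.trace_zero]) (fun x y hx hy => by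
    rw [add_mul, Matrix.trace_add, hx, hy, add_zero]) (fun c x hx => by
    rw [smul_mul_assoc, Matrix.trace_smul, hx, smul_zero]) fun x hx y hy => ?_
  have h1 : (bk x y * z).trace = (x * bk y z).trace := by
    unfold bk
    rw [sub_mul, mul_sub, Matrix.trace_sub, Matrix.trace_sub, mul_assoc x y z,
      mul_assoc y x z, Matrix.trace_mul_comm y (x * z), mul_assoc x z y]
  have h2 : bk y z = 0 := by rw [bk_anti, hz.bk hy, neg_zero]
  rw [h1, h2, mul_zero, Matrix.trace_zero]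

/-- The ideals are stable under the complex conjugation. -/
theorem cj_mem (hd : RLie.Dat m N) (hL : ∀ x, x ∈ L ↔ reM x ∈ m ∧ imM x ∈ m) (h : Ideals L I)
    {i : Fin k} : ∀ x ∈ I i, cj x ∈ I i := by
  have hcL : ∀ x ∈ L, cj x ∈ L := fun x hx => by
    rw [hL, reM_cj, imM_cj]
    exact ⟨((hL x).1 hx).1, m.neg_mem ((hL x).1 hx).2⟩
  have hNL : cxm N ∈ L := by
    rw [hL, reM_cxm, imM_cxm]
    exact ⟨hd.mem, m.zero_mem⟩
  let K : Submodule ℂ (Matrix (Fin n) (Fin n) ℂ) :=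
    { carrier := {x | x ∈ I i ∧ cj x ∈ I i}
      add_mem' := fun {a b} ha hb => ⟨(I i).add_mem ha.1 hb.1, by
        rw [cj_add]; exact (I i).add_mem ha.2 hb.2⟩
      zero_mem' := ⟨(I i).zero_mem, by rw [cj_zero]; exact (I i).zero_mem⟩
      smul_mem' := fun c a ha => ⟨(I i).smul_mem c ha.1, by
        rw [cj_smul]; exact (I i).smul_mem _ ha.2⟩ }
  have h1 : K = ⊥ ∨ K = I i := by
    refine h.simple i K (fun x hx => hx.1) fun x hx y hy => ?_
    refine ⟨h.br i x hx y hy.1, ?_⟩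
    change cj (bk x y) ∈ I i
    rw [cj_bk]
    exact h.norm (hcL x (h.le i hx)) hy.2
  rcases h1 with h1 | h1
  · exfalso
    have h2 : ∀ x ∈ I i, Com (cj x) (I i) := by
      intro x hx
      rw [com_iff]
      intro z hz
      have h3 : bk (cj x) z ∈ K := by
        refine ⟨h.norm (hcL x (h.le i hx)) hz, ?_⟩
        rw [cj_bk, cj_cj, bk_anti]
        exact (I i).neg_mem (h.norm (hcL z (h.le i hz)) hx)
      rw [h1, Submodule.mem_bot] at h3
      exact h3
    obtain ⟨y, hy, hy0⟩ := h.ne_bot i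
    obtain ⟨hym, hym'⟩ := (hL y).1 (h.le i hy)
    set a := reM y with ha
    set b := imM y with hb
    have hye : y = cxm a + Complex.I • cxm b := eq_re_im y
    have hcy : cj y = cxm a - Complex.I • cxm b := by
      rw [hye, cj_add, cj_smul, cj_cxm, cj_cxm, Complex.conj_I, neg_smul, sub_eq_add_neg]
    have h3 : y + (1 / 2 : ℂ) • bk (cxm N) (bk (cxm N) y) ∈ I i :=
      (I i).add_mem hy ((I i).smul_mem _ (h.norm hNL (h.norm hNL hy)))
    have h4 := tr_zero h (h2 y hy) _ h3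
    have h5 : y + (1 / 2 : ℂ) • bk (cxm N) (bk (cxm N) y) =
        cxm (a + (1 / 2 : ℝ) • RLie.br N (RLie.br N a)) +
          Complex.I • cxm (b + (1 / 2 : ℝ) • RLie.br N (RLie.br N b)) := by
      rw [cxm_add, cxm_add, cxm_smul, cxm_smul, cxm_br, cxm_br, cxm_br, cxm_br, hye, bk_add',
        bk_add', bk_smul', bk_smul']
      push_cast
      module
    have h6 := congrArg Complex.re h4
    rw [h5, hcy, tr_re, Complex.zero_re] at h6
    have h7 : ∀ c ∈ m, ((c + (1 / 2 : ℝ) • RLie.br N (RLie.br N c)) * c).trace ≤ 0 := by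
      intro c hc
      by_cases hc0 : c = 0
      · rw [hc0, mul_zero, Matrix.trace_zero]
      · exact (hd.pos c hc hc0).le
    have h8 : a = 0 := by
      by_contra h0
      have := hd.pos a hym h0
      have := h7 b hym'
      linarith
    have h9 : b = 0 := by
      by_contra h0
      have := hd.pos b hym' h0
      have := h7 a hym
      linarith
    rw [h8, h9, cxm_zero, smul_zero, add_zero] at hye
    exact hy0 hye
  · intro x hx
    have h2 : x ∈ K := by rw [h1]; exact hx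
    exact h2.2

theorem Com.cj {J : Submodule ℂ (Matrix (Fin n) (Fin n) ℂ)} (hJ : ∀ x ∈ J, cj x ∈ J)
    {u : Matrix (Fin n) (Fin n) ℂ} (hu : Com u J) : Com (SM.cj u) J := by
  rw [com_iff]
  intro z hz
  have h1 : SM.bk (SM.cj u) z = SM.cj (SM.bk u (SM.cj z)) := by rw [cj_bk, cj_cj]
  rw [h1, hu.bk (hJ z hz), cj_zero]

theorem Com.re {J : Submodule ℂ (Matrix (Fin n) (Fin n) ℂ)} (hJ : ∀ x ∈ J, SM.cj x ∈ J)
    {u : Matrix (Fin n) (Fin n) ℂ} (hu : Com u J) : Com (cxm (reM u)) J := by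
  rw [cxm_re]
  exact (hu.add (hu.cj hJ)).smul _

theorem re_mem {J : Submodule ℂ (Matrix (Fin n) (Fin n) ℂ)} (hJ : ∀ x ∈ J, cj x ∈ J)
    {u : Matrix (Fin n) (Fin n) ℂ} (hu : u ∈ J) : cxm (reM u) ∈ J := by
  rw [cxm_re]
  exact J.smul_mem _ (J.add_mem hu (hJ u hu))

theorem im_mem {J : Submodule ℂ (Matrix (Fin n) (Fin n) ℂ)} (hJ : ∀ x ∈ J, cj x ∈ J)
    {u : Matrix (Fin n) (Fin n) ℂ} (hu : u ∈ J) : cxm (imM u) ∈ J := by
  rw [cxm_im]
  exact J.smul_mem _ (J.sub_mem hu (hJ u hu))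

/-- A real element which does not commute with an ideal does not commute with a real element of
the ideal. -/
theorem exists_real {J : Submodule ℂ (Matrix (Fin n) (Fin n) ℂ)} (hJ : ∀ x ∈ J, cj x ∈ J)
    {X : Matrix (Fin n) (Fin n) ℝ} (hX : ¬ Com (cxm X) J) :
    ∃ a : Matrix (Fin n) (Fin n) ℝ, cxm a ∈ J ∧ RLie.br X a ≠ 0 := by
  by_contra hcon
  push Not at hcon
  refine hX (com_iff.2 fun z hz => ?_)
  rw [eq_re_im z, bk_add', bk_smul', ← cxm_br, ← cxm_br, hcon _ (re_mem hJ hz),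
    hcon _ (im_mem hJ hz), cxm_zero, smul_zero, add_zero]

/-- The real projection to an ideal. -/
theorem exists_comp (h : Ideals L I) (hcI : ∀ l, ∀ x ∈ I l, cj x ∈ I l)
    {b : Matrix (Fin n) (Fin n) ℝ} (hb : cxm b ∈ L) :
    ∃ c : Fin k → Matrix (Fin n) (Fin n) ℝ, (∀ l, cxm (c l) ∈ I l) ∧ cxm b = ∑ l, cxm (c l) := by
  obtain ⟨c, hc, hce⟩ := h.dec _ hb
  have h1 : (fun l => cj (c l)) = c := by
    refine h.uniq (fun l => hcI l _ (hc l)) hc ?_
    rw [← cj_sum, ← hce, cj_cxm]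
  have h2 : ∀ l, cxm (reM (c l)) = c l := fun l => cxm_re_of_cj (congrFun h1 l)
  refine ⟨fun l => reM (c l), fun l => by rw [h2]; exact hc l, ?_⟩
  rw [hce]
  exact Finset.sum_congr rfl fun l _ => (h2 l).symm

/-- The bracket of two sums. -/
theorem bk_sums (h : Ideals L I) {c d : Fin k → Matrix (Fin n) (Fin n) ℂ} (hc : ∀ l, c l ∈ I l)
    (hd : ∀ l, d l ∈ I l) : bk (∑ l, c l) (∑ l, d l) = ∑ l, bk (c l) (d l) := by
  have h1 : bk (∑ l, c l) (∑ l, d l) = ∑ l, bk (∑ l, c l) (d l) := by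
    unfold bk
    rw [Finset.mul_sum, Finset.sum_mul, ← Finset.sum_sub_distrib]
  rw [h1]
  exact Finset.sum_congr rfl fun l _ => h.bk_sum hc (hd l)

/-- **Identified ideals are both compact or both noncompact.** -/
theorem compact_of_rel (hd : RLie.Dat m N) (hL : ∀ x, x ∈ L ↔ reM x ∈ m ∧ imM x ∈ m)
    (h : Ideals L I) (hD : D ≤ L) (hDb : ∀ x ∈ D, ∀ y ∈ D, bk x y ∈ D) (hDc : ∀ x ∈ D, cj x ∈ D)
    {i j : Fin k} (hi : Cov D (I i)) (hr : rel D I i j) (hj : Com (cxm N) (I j)) :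
    Com (cxm N) (I i) := by
  by_contra hNi
  have hcI : ∀ l, ∀ x ∈ I l, cj x ∈ I l := fun l => cj_mem hd hL h
  have hNL : cxm N ∈ L := by
    rw [hL, reM_cxm, imM_cxm]
    exact ⟨hd.mem, m.zero_mem⟩
  have hmL : ∀ {b : Matrix (Fin n) (Fin n) ℝ}, cxm b ∈ L ↔ b ∈ m := fun {b} => by
    rw [hL, reM_cxm, imM_cxm]
    exact ⟨fun h => h.1, fun h => ⟨h, m.zero_mem⟩⟩
  -- a real element of the noncompact part
  obtain ⟨a, ha, ha0⟩ := exists_real (hcI i) hNi
  have ham : a ∈ m := hmL.1 (h.le i ha)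
  obtain ⟨X, hX⟩ : ∃ X, X = RLie.br N a := ⟨_, rfl⟩
  have hXi : cxm X ∈ I i := by
    rw [hX, cxm_br]
    exact h.norm hNL ha
  have hXm : X ∈ m := hmL.1 (h.le i hXi)
  have hX0 : X ≠ 0 := by rw [hX]; exact ha0
  have hX2 : RLie.br N (RLie.br N X) = (-4 : ℝ) • X := by rw [hX]; exact hd.cub a ham
  -- lifts
  have lift : ∀ b : Matrix (Fin n) (Fin n) ℝ, cxm b ∈ I i → ∃ y : Matrix (Fin n) (Fin n) ℝ,
      cxm y ∈ D ∧ Com (cxm y - cxm b) (I i) := by
    intro b hb
    obtain ⟨y, hy, hyb⟩ := hi _ hb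
    refine ⟨reM y, re_mem hDc hy, ?_⟩
    have h1 := hyb.re (hcI i)
    rwa [reM_sub, reM_cxm, cxm_sub] at h1
  obtain ⟨y, hy, hyX⟩ := lift X hXi
  obtain ⟨c, hc, hce⟩ := exists_comp h hcI (hD hy)
  have hcX : c i = X := by
    have h1 : Com (cxm (c i) - cxm X) (I i) := by
      rw [com_iff]
      intro z hz
      have h2 := hyX.bk hz
      rw [bk_sub, hce, h.bk_sum hc hz] at h2
      rw [bk_sub, h2]
    exact cxm_inj (sub_eq_zero.1 (h.cen ((I i).sub_mem (hc i) hXi) h1))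
  -- the eigenvector
  let K : Submodule ℝ m :=
    { carrier := {s | ∃ a : Matrix (Fin n) (Fin n) ℝ, cxm a ∈ I i ∧
        (s : Matrix (Fin n) (Fin n) ℝ) = RLie.br X (RLie.br X a)}
      add_mem' := by
        rintro s t ⟨a, ha, hs⟩ ⟨b, hb, ht⟩
        exact ⟨a + b, by rw [cxm_add]; exact (I i).add_mem ha hb, by
          rw [Submodule.coe_add, hs, ht, map_add, map_add]⟩
      zero_mem' := ⟨0, by rw [cxm_zero]; exact (I i).zero_mem, by
        rw [map_zero, map_zero]; rfl⟩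
      smul_mem' := by
        rintro r s ⟨a, ha, hs⟩
        exact ⟨r • a, by rw [cxm_smul]; exact (I i).smul_mem _ ha, by
          rw [Submodule.coe_smul, hs, map_smul, map_smul]⟩ }
  have hbr : ∀ a : Matrix (Fin n) (Fin n) ℝ, cxm a ∈ I i → cxm (RLie.br X a) ∈ I i := by
    intro a ha
    rw [cxm_br]
    exact h.br i _ hXi _ ha
  have hKs : ∀ v ∈ K, sq hd hXm v ∈ K := by
    rintro v ⟨a, ha, hv⟩
    refine ⟨RLie.br X (RLie.br X a), hbr _ (hbr _ ha), ?_⟩
    rw [sq_coe, hv]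
  have hXc : ¬ Com (cxm X) (I i) := fun h0 => hX0 (cxm_inj (by rw [h.cen hXi h0, cxm_zero]))
  obtain ⟨b, hb, hb0⟩ := exists_real (hcI i) hXc
  have hbm : b ∈ m := hmL.1 (h.le i hb)
  have hK0 : K ≠ ⊥ := by
    intro h0
    have h1 : (⟨RLie.br X (RLie.br X b), hd.br X hXm _ (hd.br X hXm b hbm)⟩ : m) ∈ K := ⟨b, hb, rfl⟩
    rw [h0, Submodule.mem_bot] at h1
    have h2 : RLie.br X (RLie.br X b) = 0 := congrArg (fun y : m => (y : Matrix (Fin n) (Fin n) ℝ)) h1
    have h3 := bf_pos hd (hd.br X hXm b hbm) hb0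
    rw [ad_symm hd hXm hX2 hbm (hd.br X hXm b hbm), h2] at h3
    unfold bf at h3
    simp at h3
  have hKr : K ≤ LinearMap.range (sq hd hXm) := by
    rintro v ⟨a, ha, hv⟩
    exact ⟨⟨a, hmL.1 (h.le i ha)⟩, Subtype.ext (by rw [sq_coe, hv])⟩
  obtain ⟨μ, hμ, w, ⟨w', hw', hww'⟩, hw0, hweq⟩ := exists_eig hd hXm hX2 hKs hK0 hKr
  have hwi : cxm (w : Matrix (Fin n) (Fin n) ℝ) ∈ I i := by
    rw [hww']
    exact hbr _ (hbr _ hw')
  have hw1 : RLie.br X (RLie.br X (w : Matrix (Fin n) (Fin n) ℝ)) =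
      μ • (w : Matrix (Fin n) (Fin n) ℝ) := by
    have h1 := congrArg (fun y : m => (y : Matrix (Fin n) (Fin n) ℝ)) hweq
    exact h1
  obtain ⟨z, hz, hzw⟩ := lift _ hwi
  obtain ⟨d, hd', hde⟩ := exists_comp h hcI (hD hz)
  have hdw : d i = w := by
    have h1 : Com (cxm (d i) - cxm (w : Matrix (Fin n) (Fin n) ℝ)) (I i) := by
      rw [com_iff]
      intro z' hz'
      have h2 := hzw.bk hz'
      rw [bk_sub, hde, h.bk_sum hd' hz'] at h2
      rw [bk_sub, h2]
    exact cxm_inj (sub_eq_zero.1 (h.cen ((I i).sub_mem (hd' i) hwi) h1))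
  -- the element of `D`
  have ht : bk (cxm y) (bk (cxm y) (cxm z)) - (μ : ℂ) • cxm z ∈ D :=
    D.sub_mem (hDb _ hy _ (hDb _ hy _ hz)) (D.smul_mem _ hz)
  have hte : bk (cxm y) (bk (cxm y) (cxm z)) - (μ : ℂ) • cxm z =
      ∑ l, cxm (RLie.br (c l) (RLie.br (c l) (d l)) - μ • d l) := by
    rw [hce, hde, bk_sums h hc hd', bk_sums h hc (fun l => h.norm (h.le l (hc l)) (hd' l)),
      Finset.smul_sum, ← Finset.sum_sub_distrib]
    refine Finset.sum_congr rfl fun l _ => ?_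
    rw [cxm_sub, cxm_smul, cxm_br, cxm_br]
  have htm : ∀ l, cxm (RLie.br (c l) (RLie.br (c l) (d l)) - μ • d l) ∈ I l := by
    intro l
    rw [cxm_sub, cxm_smul, cxm_br, cxm_br]
    exact (I l).sub_mem (h.br l _ (hc l) _ (h.br l _ (hc l) _ (hd' l))) ((I l).smul_mem _ (hd' l))
  have hti : Com (bk (cxm y) (bk (cxm y) (cxm z)) - (μ : ℂ) • cxm z) (I i) := by
    rw [hte, h.com_iff_comp htm, hcX, hdw, hw1, sub_self, cxm_zero]
  have htj := (hr _ ht).1 hti
  rw [hte, h.com_iff_comp htm] at htj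
  have h1 : RLie.br (c j) (RLie.br (c j) (d j)) = μ • d j :=
    sub_eq_zero.1 (cxm_inj (by rw [htj, cxm_zero]))
  have hd0 : d j ≠ 0 := by
    intro h0
    have h2 : Com (cxm z) (I j) := by
      rw [hde, h.com_iff_comp hd', h0, cxm_zero]
    have h3 := (hr _ hz).2 h2
    rw [hde, h.com_iff_comp hd', hdw] at h3
    exact hw0 (Subtype.ext (cxm_inj (by rw [h3]; exact cxm_zero.symm)))
  have hcm : c j ∈ m := hmL.1 (h.le j (hc j))
  have hdm : d j ∈ m := hmL.1 (h.le j (hd' j))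
  have hNk : ∀ e : Matrix (Fin n) (Fin n) ℝ, cxm e ∈ I j → RLie.br N e = 0 := by
    intro e he
    refine cxm_inj ?_
    rw [cxm_br, hj.bk he, cxm_zero]
  have h2 := hd.negk hdm (hNk _ (hd' j)) hd0
  have h3 := hd.nonposk (hd.br _ hcm _ hdm) (hNk _ (by
    rw [cxm_br]; exact h.br j _ (hc j) _ (hd' j)))
  have h4 : (RLie.br (c j) (RLie.br (c j) (d j)) * d j).trace =
      -(RLie.br (c j) (d j) * RLie.br (c j) (d j)).trace := by
    rw [RLie.br_anti (c j) (RLie.br (c j) (d j)), neg_mul, Matrix.trace_neg, RLie.tr_br]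
  rw [h1, smul_mul_assoc, Matrix.trace_smul, smul_eq_mul] at h4
  have h5 : μ * (d j * d j).trace < 0 := mul_neg_of_pos_of_neg hμ h2
  linarith

end Main

end Pool.Agent.K6.H85.SM
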